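import Mathlib

set_option autoImplicit false

namespace Pool.Agent.Results.MP_75c46b_gt.Full

/-- The distance of two sets: the infimum of the distances of their points. -/
noncomputable def setDist {X : Type*} [MetricSpace X] (A B : Set X) : ℝ :=
  sInf {r : ℝ | ∃ p ∈ A, ∃ q ∈ B, r = dist p q}

/-- A collection of sets is a chain if it can be listed as `C 0, ..., C n` so that
`C i ∩ C j` is nonempty exactly when `|i - j| ≤ 1`. -/
def IsLinkChain {X : Type*} (D : Set (Set X)) : Prop :=
  ∃ (n : ℕ) (C : Fin (n + 1) → Set X), Set.range C = D ∧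
    ∀ i j : Fin (n + 1), (C i ∩ C j).Nonempty ↔ |((i : ℕ) : ℤ) - ((j : ℕ) : ℤ)| ≤ 1

/-- The property of the number `a` in the definition of the width: for every `ε > 0` there is a
finite open cover of mesh less than `ε` such that for every chain `D` of members of the cover,
some (nonempty) member of the cover is at distance at least `a` from the union of `D`. -/
def WidthProp (X : Type*) [MetricSpace X] (a : ℝ) : Prop :=
  ∀ ε : ℝ, 0 < ε → ∃ 𝒞 : Set (Set X), 𝒞.Finite ∧ (∀ C ∈ 𝒞, IsOpen C) ∧
    ⋃₀ 𝒞 = Set.univ ∧ (∀ C ∈ 𝒞, Metric.diam C < ε) ∧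
    ∀ D : Set (Set X), D ⊆ 𝒞 → IsLinkChain D →
      ∃ A ∈ 𝒞, A.Nonempty ∧ a ≤ setDist A (⋃₀ D)

/-- The width of a metric space: the supremum of all reals with `WidthProp`. -/
noncomputable def width (X : Type*) [MetricSpace X] : ℝ :=
  sSup {a : ℝ | WidthProp X a}

/-- A metric space is chainable (arc-like) if for every `ε > 0` it has a continuous map onto
`[0, 1]` all of whose fibres have diameter at most `ε`. -/
def Chainable (Y : Type*) [MetricSpace Y] : Prop :=
  ∀ ε : ℝ, 0 < ε → ∃ g : Y → unitInterval, Continuous g ∧ Function.Surjective g ∧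
    ∀ t, Metric.diam (g ⁻¹' {t}) ≤ ε

/-- Sanity check: on a nonempty compact space every number with `WidthProp` is at most the
diameter, so the supremum defining `width` is taken over a set bounded above. -/
theorem widthProp_le_diam {X : Type*} [MetricSpace X] [CompactSpace X] [Nonempty X] {a : ℝ}
    (h : WidthProp X a) : a ≤ Metric.diam (Set.univ : Set X) := by
  obtain ⟨𝒞, _, _, hcov, _, hfar⟩ := h 1 one_pos
  obtain ⟨x⟩ := ‹Nonempty X›
  obtain ⟨C, hC, hxC⟩ : x ∈ ⋃₀ 𝒞 := by rw [hcov]; trivial
  obtain ⟨A, _, ⟨p, hp⟩, hAd⟩ := hfar {C} (by simpa using hC) ⟨0, fun _ => C, by simp, by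
    intro i j
    have h1 : (i : ℕ) = 0 := by omega
    have h2 : (j : ℕ) = 0 := by omega
    rw [h1, h2]
    constructor
    · intro _; norm_num
    · intro _; exact ⟨x, hxC, hxC⟩⟩
  refine le_trans hAd (le_trans (csInf_le ?_ ?_) (Metric.dist_le_diam_of_mem
    Metric.isBounded_of_compactSpace (Set.mem_univ p) (Set.mem_univ x)))
  · exact ⟨0, by rintro r ⟨_, _, _, _, rfl⟩; exact dist_nonneg⟩
  · exact ⟨p, hp, x, by simpa using hxC, rfl⟩

/-- Sanity check: on a nonempty compact space the number `0` has `WidthProp`. -/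
theorem widthProp_zero {X : Type*} [MetricSpace X] [CompactSpace X] [Nonempty X] :
    WidthProp X 0 := by
  intro ε hε
  obtain ⟨t, ht, hcov⟩ := isCompact_univ.elim_nhds_subcover (fun x : X => Metric.ball x (ε / 3))
    (fun x _ => Metric.ball_mem_nhds x (by linarith))
  refine ⟨(fun x : X => Metric.ball x (ε / 3)) '' (t : Set X), t.finite_toSet.image _, ?_, ?_,
    ?_, ?_⟩
  · rintro C ⟨x, _, rfl⟩; exact Metric.isOpen_ball
  · apply Set.eq_univ_of_univ_subset
    intro y hy
    obtain ⟨x, hx, hyx⟩ := Set.mem_iUnion₂.mp (hcov hy)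
    exact ⟨_, ⟨x, hx, rfl⟩, hyx⟩
  · rintro C ⟨x, _, rfl⟩
    have := Metric.diam_ball (x := x) (r := ε / 3) (by linarith)
    linarith
  · intro D _ _
    obtain ⟨x⟩ := ‹Nonempty X›
    obtain ⟨y, hy, _⟩ := Set.mem_iUnion₂.mp (hcov (Set.mem_univ x))
    refine ⟨_, ⟨y, hy, rfl⟩, ⟨y, Metric.mem_ball_self (by linarith)⟩, ?_⟩
    apply Real.sInf_nonneg
    rintro r ⟨_, _, _, _, rfl⟩; exact dist_nonneg

/-- Shortest connecting chains in an open cover of a connected space. -/
theorem exists_chain {X : Type*} [TopologicalSpace X] [PreconnectedSpace X]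
    (𝒞 : Set (Set X)) (hopen : ∀ C ∈ 𝒞, IsOpen C) (hcov : ⋃₀ 𝒞 = Set.univ)
    (S F : Set X) (hS : S.Nonempty) (hF : F.Nonempty) :
    ∃ (n : ℕ) (C : ℕ → Set X), (∀ i ≤ n, C i ∈ 𝒞) ∧
      (∀ i < n, (C i ∩ C (i + 1)).Nonempty) ∧ (C 0 ∩ S).Nonempty ∧ (C n ∩ F).Nonempty ∧
      (∀ i j, j ≤ n → i + 1 < j → ¬ (C i ∩ C j).Nonempty) ∧
      (∀ i, i ≤ n → 0 < i → ¬ (C i ∩ S).Nonempty) := by
  classical
  let P : ℕ → Prop := fun n => ∃ C : ℕ → Set X, (∀ i ≤ n, C i ∈ 𝒞) ∧
      (∀ i < n, (C i ∩ C (i + 1)).Nonempty) ∧ (C 0 ∩ S).Nonempty ∧ (C n ∩ F).Nonempty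
  let R : Set X := {x | ∃ (n : ℕ) (C : ℕ → Set X), (∀ i ≤ n, C i ∈ 𝒞) ∧
      (∀ i < n, (C i ∩ C (i + 1)).Nonempty) ∧ (C 0 ∩ S).Nonempty ∧ x ∈ C n}
  have hRopen : IsOpen R := by
    rw [isOpen_iff_forall_mem_open]
    rintro x ⟨n, C, h1, h2, h3, h4⟩
    refine ⟨C n, ?_, hopen _ (h1 n le_rfl), h4⟩
    intro y hy
    exact ⟨n, C, h1, h2, h3, hy⟩
  have hRcopen : IsOpen Rᶜ := by
    rw [isOpen_iff_forall_mem_open]
    intro x hx
    have hxu : x ∈ ⋃₀ 𝒞 := by rw [hcov]; trivial
    obtain ⟨D, hD, hxD⟩ := hxu
    refine ⟨D, ?_, hopen _ hD, hxD⟩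
    intro y hy hyR
    apply hx
    obtain ⟨n, C, h1, h2, h3, h4⟩ := hyR
    refine ⟨n + 1, fun i => if i ≤ n then C i else D, ?_, ?_, ?_, ?_⟩
    · intro i hi
      by_cases h : i ≤ n
      · simp only [h, if_true]; exact h1 i h
      · simp only [h, if_false]; exact hD
    · intro i hi
      have hin : i ≤ n := by omega
      by_cases h : i + 1 ≤ n
      · simp only [h, hin, if_true]; exact h2 i (by omega)
      · have : i = n := by omega
        subst this
        simp only [le_refl, if_true, h, if_false]
        exact ⟨y, h4, hy⟩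
    · simpa using h3
    · simpa using hxD
  have hRclopen : IsClopen R := ⟨by rw [← isOpen_compl_iff]; exact hRcopen, hRopen⟩
  have hRne : R.Nonempty := by
    obtain ⟨s, hs⟩ := hS
    have hxu : s ∈ ⋃₀ 𝒞 := by rw [hcov]; trivial
    obtain ⟨D, hD, hsD⟩ := hxu
    exact ⟨s, 0, fun _ => D, fun _ _ => hD, fun i hi => absurd hi (by omega), ⟨s, hsD, hs⟩, hsD⟩
  have hRuniv : R = Set.univ := hRclopen.eq_univ hRne
  have hP : ∃ n, P n := by
    obtain ⟨q, hq⟩ := hF
    have : q ∈ R := by rw [hRuniv]; trivial
    obtain ⟨n, C, h1, h2, h3, h4⟩ := this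
    exact ⟨n, C, h1, h2, h3, ⟨q, h4, hq⟩⟩
  obtain ⟨C, h1, h2, h3, h4⟩ := Nat.find_spec hP
  have hmin : ∀ m, m < Nat.find hP → ¬ P m := fun m hm => Nat.find_min hP hm
  set n := Nat.find hP with hn
  refine ⟨n, C, h1, h2, h3, h4, ?_, ?_⟩
  · intro i j hj hij hne
    apply hmin (n - (j - i - 1)) (by omega)
    refine ⟨fun k => if k ≤ i then C k else C (k + (j - i - 1)), ?_, ?_, ?_, ?_⟩
    · intro k hk
      by_cases h : k ≤ i
      · simp only [h, if_true]; exact h1 k (by omega)
      · simp only [h, if_false]; exact h1 _ (by omega)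
    · intro k hk
      by_cases h : k + 1 ≤ i
      · have hk' : k ≤ i := by omega
        simp only [h, hk', if_true]; exact h2 k (by omega)
      · by_cases h' : k ≤ i
        · have hki : k = i := by omega
          subst hki
          simp only [le_refl, if_true, h, if_false]
          have : k + 1 + (j - k - 1) = j := by omega
          rw [this]; exact hne
        · simp only [h, h', if_false]
          have : k + 1 + (j - i - 1) = (k + (j - i - 1)) + 1 := by omega
          rw [this]; exact h2 _ (by omega)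
    · simpa using h3
    · have h : ¬ (n - (j - i - 1) ≤ i) := by omega
      simp only [h, if_false]
      have : n - (j - i - 1) + (j - i - 1) = n := by omega
      rw [this]; exact h4
  · intro i hi hi0 hne
    apply hmin (n - i) (by omega)
    refine ⟨fun k => C (k + i), ?_, ?_, ?_, ?_⟩
    · intro k hk; exact h1 _ (by omega)
    · intro k hk
      have : k + 1 + i = (k + i) + 1 := by omega
      simp only [this]; exact h2 _ (by omega)
    · simpa using hne
    · have : n - i + i = n := by omega
      simp only [this]; exact h4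


/-- The real valued case, for an arbitrary continuum. -/
theorem main_real {X : Type*} [MetricSpace X] [CompactSpace X] [ConnectedSpace X]
    (h : X → ℝ) (hcont : Continuous h) (a a' : ℝ) (ha : 0 < a) (haa' : a < a')
    (hw : WidthProp X a') : ∃ x y : X, dist x y = a ∧ h x = h y := by
  classical
  by_contra hno
  push Not at hno
  -- a uniform gap
  obtain ⟨c, hc0, hc⟩ : ∃ c : ℝ, 0 < c ∧ ∀ x y, |h x - h y| < c → c ≤ |dist x y - a| := by
    have hG : Continuous (fun z : X × X => max |h z.1 - h z.2| |dist z.1 z.2 - a|) := by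
      fun_prop
    obtain ⟨z, _, hz⟩ := isCompact_univ.exists_isMinOn (Set.univ_nonempty) hG.continuousOn
    refine ⟨max |h z.1 - h z.2| |dist z.1 z.2 - a|, ?_, ?_⟩
    · by_cases h1 : dist z.1 z.2 = a
      · have := hno z.1 z.2 h1
        exact lt_max_of_lt_left (abs_pos.mpr (sub_ne_zero.mpr this))
      · exact lt_max_of_lt_right (abs_pos.mpr (sub_ne_zero.mpr h1))
    · intro x y hxy
      have := hz (Set.mem_univ (x, y))
      simp only [Set.mem_ofPred_eq] at this
      rcases le_max_iff.mp this with h1 | h1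
      · exact absurd hxy (not_lt.mpr h1)
      · exact h1
  obtain ⟨p0, _, hp0⟩ := isCompact_univ.exists_isMinOn (Set.univ_nonempty) hcont.continuousOn
  obtain ⟨q0, _, hq0⟩ := isCompact_univ.exists_isMaxOn (Set.univ_nonempty) hcont.continuousOn
  have hmin : ∀ x, h p0 ≤ h x := fun x => hp0 (Set.mem_univ x)
  have hmax : ∀ x, h x ≤ h q0 := fun x => hq0 (Set.mem_univ x)
  set μ := h p0 with hμ
  set M := h q0 with hM
  set ε2 : ℝ := min c a / 4 with hε2
  have hε2pos : 0 < ε2 := by rw [hε2]; have := lt_min hc0 ha; linarith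
  have hε2c : ε2 ≤ c / 4 := by rw [hε2]; have := min_le_left c a; linarith
  have hε2a : ε2 ≤ a / 4 := by rw [hε2]; have := min_le_right c a; linarith
  obtain ⟨η, hη0, hηc, hη⟩ : ∃ η : ℝ, 0 < η ∧ 2 * η < c / 4 ∧
      ∀ x, h x ≤ μ + 2 * η → ∃ p, h p = μ ∧ dist x p < ε2 := by
    let K : Set X := {x | ∀ p, h p = μ → ε2 ≤ dist x p}
    have hKc : IsClosed K := by
      have : K = ⋂ (p : X) (_ : h p = μ), {x | ε2 ≤ dist x p} := by
        ext x; simp [K]
      rw [this]
      exact isClosed_iInter fun p => isClosed_iInter fun _ =>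
        isClosed_le continuous_const (continuous_id.dist continuous_const)
    by_cases hKe : K.Nonempty
    · obtain ⟨x1, hx1K, hx1⟩ := hKc.isCompact.exists_isMinOn hKe hcont.continuousOn
      have hx1μ : μ < h x1 := by
        rcases lt_or_eq_of_le (hmin x1) with h1 | h1
        · exact h1
        · exfalso
          have := hx1K x1 h1.symm
          rw [dist_self] at this
          linarith
      refine ⟨min (c / 16) ((h x1 - μ) / 4), ?_, ?_, ?_⟩
      · apply lt_min <;> linarith
      · have := min_le_left (c / 16) ((h x1 - μ) / 4)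
        linarith
      · intro x hx
        by_contra hcon
        push Not at hcon
        have hxK : x ∈ K := fun p hp => hcon p hp
        have h2 : h x1 ≤ h x := hx1 hxK
        have := min_le_right (c / 16) ((h x1 - μ) / 4)
        linarith
    · refine ⟨c / 16, by linarith, by linarith, ?_⟩
      intro x _
      by_contra hcon
      push Not at hcon
      exact hKe ⟨x, fun p hp => hcon p hp⟩
  obtain ⟨δ1, hδ1pos, hδ1⟩ : ∃ δ : ℝ, 0 < δ ∧ ∀ x x', dist x x' < δ → |h x - h x'| < c / 4 := by
    have huc := CompactSpace.uniformContinuous_of_continuous hcont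
    obtain ⟨δ, hδ, hδ'⟩ := Metric.uniformContinuous_iff.mp huc (c / 4) (by linarith)
    exact ⟨δ, hδ, fun x x' hx => by simpa [Real.dist_eq] using hδ' hx⟩
  set ε := min ε2 δ1 with hε
  have hεpos : 0 < ε := lt_min hε2pos hδ1pos
  have hεε2 : ε ≤ ε2 := min_le_left _ _
  have hεδ1 : ε ≤ δ1 := min_le_right _ _
  obtain ⟨𝒞, _, hopen, hcov, hmesh, hfar⟩ := hw ε hεpos
  obtain ⟨n, C, hC1, hC2, hC3, hC4, hC5, hC6⟩ := exists_chain 𝒞 hopen hcov
    {x | h x ≤ μ + 2 * η} {x | h x = M} ⟨p0, by show h p0 ≤ _; rw [← hμ]; linarith⟩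
    ⟨q0, rfl⟩
  have hne : ∀ i ≤ n, (C i).Nonempty := by
    intro i hi
    rcases Nat.eq_zero_or_pos i with h0 | h0
    · subst h0; exact hC3.mono Set.inter_subset_left
    · have := hC2 (i - 1) (by omega)
      have h1 : i - 1 + 1 = i := by omega
      rw [h1] at this
      exact this.mono Set.inter_subset_right
  -- the chain
  have hchain : IsLinkChain (Set.range (fun i : Fin (n + 1) => C i)) := by
    refine ⟨n, fun i => C i, rfl, ?_⟩
    intro i j
    have hi : (i : ℕ) ≤ n := by omega
    have hj : (j : ℕ) ≤ n := by omega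
    constructor
    · intro hij
      by_contra hcon
      rcases lt_trichotomy (i : ℕ) (j : ℕ) with h1 | h1 | h1
      · have h2 : (i : ℕ) + 1 < j := by
          by_contra h3
          apply hcon
          rw [abs_le]; constructor <;> omega
        exact hC5 i j hj h2 hij
      · apply hcon; rw [h1]; simp
      · have h2 : (j : ℕ) + 1 < i := by
          by_contra h3
          apply hcon
          rw [abs_le]; constructor <;> omega
        rw [Set.inter_comm] at hij
        exact hC5 j i hi h2 hij
    · intro hij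
      rw [abs_le] at hij
      rcases lt_trichotomy (i : ℕ) (j : ℕ) with h1 | h1 | h1
      · have h2 : (j : ℕ) = i + 1 := by omega
        have := hC2 i (by omega)
        rw [← h2] at this
        exact this
      · show (C (i : ℕ) ∩ C (j : ℕ)).Nonempty
        rw [h1, Set.inter_self]; exact hne _ hj
      · have h2 : (i : ℕ) = j + 1 := by omega
        have := hC2 j (by omega)
        rw [← h2, Set.inter_comm] at this
        exact this
  obtain ⟨A, hA, ⟨z, hz⟩, hAd⟩ := hfar _ (by
    rintro D ⟨i, rfl⟩
    exact hC1 _ (by omega)) hchain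
  have hzfar : ∀ i ≤ n, ∀ q ∈ C i, a' ≤ dist z q := by
    intro i hi q hq
    refine le_trans hAd ?_
    apply csInf_le
    · exact ⟨0, by rintro r ⟨_, _, _, _, rfl⟩; exact dist_nonneg⟩
    · exact ⟨z, hz, q, ⟨C i, ⟨⟨i, by omega⟩, rfl⟩, hq⟩, rfl⟩
  -- the points
  obtain ⟨pt, hpt0, hptn, hpt⟩ : ∃ pt : ℕ → X, h (pt 0) ≤ μ + 2 * η ∧ h (pt (n + 1)) = M ∧
      ∀ j ≤ n, pt j ∈ C j ∧ pt (j + 1) ∈ C j := by
    have hch : ∀ j, ∃ q : X, (j < n → q ∈ C j ∩ C (j + 1)) := by
      intro j
      by_cases hj : j < n
      · obtain ⟨q, hq⟩ := hC2 j hj; exact ⟨q, fun _ => hq⟩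
      · exact ⟨p0, fun h => absurd h hj⟩
    choose r hr using hch
    obtain ⟨s0, hs0, hs0'⟩ := hC3
    obtain ⟨s1, hs1, hs1'⟩ := hC4
    refine ⟨fun j => if j = 0 then s0 else if j = n + 1 then s1 else r (j - 1), ?_, ?_, ?_⟩
    · simpa using hs0'
    · simpa using hs1'
    · intro j hj
      constructor
      · by_cases h0 : j = 0
        · subst h0; simpa using hs0
        · have h1 : j ≠ n + 1 := by omega
          simp only [h0, h1, if_false]
          have := (hr (j - 1) (by omega)).2
          have h2 : j - 1 + 1 = j := by omega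
          rwa [h2] at this
      · by_cases h1 : j + 1 = n + 1
        · have h2 : j = n := by omega
          subst h2
          simpa using hs1
        · have h0 : j + 1 ≠ 0 := by omega
          simp only [h0, h1, if_false]
          exact (hr (j + 1 - 1) (by omega)).1
  have hzpt : ∀ j ≤ n + 1, a' ≤ dist z (pt j) := by
    intro j hj
    by_cases h1 : j ≤ n
    · exact hzfar j h1 _ (hpt j h1).1
    · have : j = n + 1 := by omega
      subst this
      exact hzfar n le_rfl _ (hpt n le_rfl).2
  have hstep : ∀ j ≤ n, dist (pt j) (pt (j + 1)) < ε := by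
    intro j hj
    refine lt_of_le_of_lt ?_ (hmesh _ (hC1 j hj))
    exact Metric.dist_le_diam_of_mem (Metric.isBounded_of_compactSpace) (hpt j hj).1 (hpt j hj).2
  have hhigh : 0 < n → ∀ j, 1 ≤ j → j ≤ n + 1 → μ + 2 * η < h (pt j) := by
    intro hn j hj1 hj2
    by_cases h1 : j ≤ n
    · by_contra hcon
      exact hC6 j h1 (by omega) ⟨pt j, (hpt j h1).1, not_lt.mp hcon⟩
    · have : j = n + 1 := by omega
      subst this
      by_contra hcon
      exact hC6 n le_rfl hn ⟨pt (n + 1), (hpt n le_rfl).2, not_lt.mp hcon⟩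
  -- labels
  let b : X → ℕ → ZMod 2 := fun x j => if dist x (pt j) < a then 1 else 0
  let s : X → ℕ → ZMod 2 := fun x j => if j = n + 2 ∨ h x + 2 * η < h (pt j) then 1 else 0
  let ν : X → ZMod 2 := fun x => ∑ j ∈ Finset.range (n + 2), b x j * (s x j + s x (j + 1))
  have hs0 : ∀ x, s x 0 = 0 := by
    intro x
    have h1 : ¬ (0 = n + 2 ∨ h x + 2 * η < h (pt 0)) := by
      rintro (h1 | h1)
      · omega
      · have := hmin x; linarith
    simp only [s, h1, if_false]
  have hslast : ∀ x, s x (n + 2) = 1 := by intro x; simp [s]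
  have hbx : ∀ x x' j, |h x - h (pt j)| < c → dist x x' < c → b x j = b x' j := by
    intro x x' j h1 h2
    have h3 := hc x (pt j) h1
    by_cases h4 : dist x (pt j) < a
    · have h5 : dist x' (pt j) < a := by
        rw [abs_of_neg (by linarith)] at h3
        have h6 := dist_triangle x' x (pt j)
        rw [dist_comm x' x] at h6
        linarith
      simp only [b, h4, h5, if_true]
    · have h5 : ¬ dist x' (pt j) < a := by
        rw [abs_of_nonneg (by linarith)] at h3
        have h6 := dist_triangle x x' (pt j)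
        linarith
      simp only [b, h4, h5, if_false]
  have hbj : ∀ x j, |h x - h (pt (j + 1))| < c → dist (pt j) (pt (j + 1)) < c →
      b x j = b x (j + 1) := by
    intro x j h1 h2
    have h3 := hc x (pt (j + 1)) h1
    by_cases h4 : dist x (pt (j + 1)) < a
    · have h5 : dist x (pt j) < a := by
        rw [abs_of_neg (by linarith)] at h3
        have h6 := dist_triangle x (pt (j + 1)) (pt j)
        rw [dist_comm (pt (j + 1)) (pt j)] at h6
        linarith
      simp only [b, h4, h5, if_true]
    · have h5 : ¬ dist x (pt j) < a := by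
        rw [abs_of_nonneg (by linarith)] at h3
        have h6 := dist_triangle x (pt j) (pt (j + 1))
        linarith
      simp only [b, h4, h5, if_false]
  have hsne : ∀ x j, j ≤ n + 1 → s x j ≠ s x (j + 1) → |h x - h (pt j)| < c / 2 := by
    intro x j hj hne'
    by_cases hjn : j = n + 1
    · subst hjn
      have h1 : ¬ (h x + 2 * η < h (pt (n + 1))) := by
        intro h1
        apply hne'
        have h2 : s x (n + 1) = 1 := by
          simp only [s]; rw [if_pos (Or.inr h1)]
        rw [h2, hslast]
      rw [hptn] at h1 ⊢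
      have h2 := hmax x
      rw [abs_lt]; constructor <;> linarith
    · have hjn' : j ≤ n := by omega
      have h1 := hδ1 _ _ (lt_of_lt_of_le (hstep j hjn') hεδ1)
      rw [abs_lt] at h1 ⊢
      have e1 : ¬ (j = n + 2) := by omega
      have e2 : ¬ (j + 1 = n + 2) := by omega
      simp only [s, e1, e2, false_or] at hne'
      by_cases h3 : h x + 2 * η < h (pt j)
      · have h4 : ¬ (h x + 2 * η < h (pt (j + 1))) := by
          intro h4; apply hne'; simp only [h3, h4]
        constructor <;> linarith
      · have h4 : h x + 2 * η < h (pt (j + 1)) := by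
          by_contra h4; apply hne'; simp only [h3, h4]
        constructor <;> linarith
  have hinv : ∀ x x', dist x x' < ε → ν x = ν x' := by
    intro x x' hxx'
    have hxx'c : dist x x' < c := by linarith
    have hhx := hδ1 _ _ (lt_of_lt_of_le hxx' hεδ1)
    have ht : ∀ j, j ≤ n + 2 → s x j ≠ s x' j → |h x - h (pt j)| < c := by
      intro j hj hne'
      have e1 : ¬ (j = n + 2) := by
        intro e; subst e; exact hne' (by rw [hslast, hslast])
      simp only [s, e1, false_or] at hne'
      rw [abs_lt] at hhx ⊢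
      by_cases h3 : h x + 2 * η < h (pt j)
      · have h4 : ¬ (h x' + 2 * η < h (pt j)) := by
          intro h4; apply hne'; simp only [h3, h4]
        constructor <;> linarith
      · have h4 : h x' + 2 * η < h (pt j) := by
          by_contra h4; apply hne'; simp only [h3, h4]
        constructor <;> linarith
    have two : ∀ u : ZMod 2, u + u = 0 := by decide
    have hterm : ∀ j ∈ Finset.range (n + 2),
        b x j * (s x j + s x (j + 1)) - b x' j * (s x' j + s x' (j + 1))
        = b x (j + 1) * (s x (j + 1) - s x' (j + 1)) - b x j * (s x j - s x' j) := by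
      intro j hj
      have hj' : j ≤ n + 1 := by have := Finset.mem_range.mp hj; omega
      have neg2 : ∀ u : ZMod 2, -u = u := by decide
      have step1 : b x j * (s x j + s x (j + 1)) - b x' j * (s x' j + s x' (j + 1))
          = b x j * ((s x j + s x (j + 1)) - (s x' j + s x' (j + 1))) := by
        by_cases hA1 : s x j ≠ s x (j + 1)
        · have h1 := hsne x j hj' hA1
          have h2 := hbx x x' j (by linarith) hxx'c
          rw [h2]; ring
        · by_cases hA2 : s x' j ≠ s x' (j + 1)
          · have h1 := hsne x' j hj' hA2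
            have h2 := hbx x x' j (by
              rw [abs_lt] at h1 hhx ⊢; constructor <;> linarith) hxx'c
            rw [h2]; ring
          · push Not at hA1 hA2
            rw [← hA1, ← hA2, two, two]; ring
      have step2 : b x j * (s x (j + 1) - s x' (j + 1))
          = b x (j + 1) * (s x (j + 1) - s x' (j + 1)) := by
        by_cases hB : s x (j + 1) = s x' (j + 1)
        · rw [hB]; ring
        · have h1 := ht (j + 1) (by omega) hB
          have hjn : j ≤ n := by
            by_contra hcon
            have : j + 1 = n + 2 := by omega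
            rw [this, hslast, hslast] at hB
            exact hB rfl
          rw [hbj x j h1 (by have := hstep j hjn; linarith)]
      rw [step1]
      have : b x j * (s x j + s x (j + 1) - (s x' j + s x' (j + 1)))
          = b x j * (s x (j + 1) - s x' (j + 1)) + b x j * (s x j - s x' j) := by ring
      rw [this, step2, sub_eq_add_neg _ (b x j * (s x j - s x' j)), neg2]
    have hsum : ν x - ν x' = 0 := by
      show (∑ j ∈ Finset.range (n + 2), b x j * (s x j + s x (j + 1)))
        - (∑ j ∈ Finset.range (n + 2), b x' j * (s x' j + s x' (j + 1))) = 0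
      rw [← Finset.sum_sub_distrib, Finset.sum_congr rfl hterm,
        Finset.sum_range_sub (fun j => b x j * (s x j - s x' j))]
      rw [hs0, hs0, hslast, hslast]; ring
    exact sub_eq_zero.mp hsum
  -- constancy
  have hconst : ∀ x, ν x = ν z := by
    have hcl : IsClopen {x | ν x = ν z} := by
      constructor
      · rw [← isOpen_compl_iff, Metric.isOpen_iff]
        intro x hx
        refine ⟨ε, hεpos, ?_⟩
        intro y hy hyz
        apply hx
        have : ν x = ν y := hinv x y (by rw [dist_comm]; exact hy)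
        show ν x = ν z
        rw [this]; exact hyz
      · rw [Metric.isOpen_iff]
        intro x hx
        refine ⟨ε, hεpos, ?_⟩
        intro y hy
        have : ν x = ν y := hinv x y (by rw [dist_comm]; exact hy)
        show ν y = ν z
        rw [← this]; exact hx
    have := hcl.eq_univ ⟨z, rfl⟩
    intro x
    have hx : x ∈ {x | ν x = ν z} := by rw [this]; trivial
    exact hx
  have hνz : ν z = 0 := by
    apply Finset.sum_eq_zero
    intro j hj
    have hj' : j ≤ n + 1 := by have := Finset.mem_range.mp hj; omega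
    have h1 := hzpt j hj'
    have h2 : ¬ (dist z (pt j) < a) := by linarith
    simp only [b, h2, if_false, zero_mul]
  obtain ⟨p, hpμ, hpd⟩ := hη (pt 0) hpt0
  have hb0 : b p 0 = 1 := by
    have : dist p (pt 0) < a := by rw [dist_comm]; linarith
    simp only [b, this, if_true]
  have hνp : ν p = 1 := by
    rcases Nat.eq_zero_or_pos n with hn | hn
    · subst hn
      have hb1 : b p 1 = 1 := by
        have h1 := hstep 0 le_rfl
        have h2 := dist_triangle p (pt 0) (pt 1)
        rw [dist_comm p (pt 0)] at h2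
        have : dist p (pt 1) < a := by
          simp only [zero_add] at h1
          linarith
        simp only [b, this, if_true]
      show ∑ j ∈ Finset.range 2, b p j * (s p j + s p (j + 1)) = 1
      rw [Finset.sum_range_succ, Finset.sum_range_one]
      have h3 : s p (1 + 1) = 1 := hslast p
      rw [hs0, h3, hb0, zero_add, hb1]
      generalize s p 1 = u
      revert u; decide
    · have hs1 : ∀ j, 1 ≤ j → j ≤ n + 2 → s p j = 1 := by
        intro j h1 h2
        by_cases h3 : j = n + 2
        · subst h3; exact hslast p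
        · have h4 := hhigh hn j h1 (by omega)
          simp only [s]; rw [if_pos (Or.inr (by rw [hpμ]; exact h4))]
      show ∑ j ∈ Finset.range (n + 2), b p j * (s p j + s p (j + 1)) = 1
      rw [Finset.sum_eq_single 0]
      · rw [hs0, hs1 1 le_rfl (by omega), hb0]; decide
      · intro j hj hj0
        have hj' : j < n + 2 := Finset.mem_range.mp hj
        rw [hs1 j (by omega) (by omega), hs1 (j + 1) (by omega) (by omega)]
        have : (1 : ZMod 2) + 1 = 0 := by decide
        rw [this, mul_zero]
      · intro hcon; exact absurd (Finset.mem_range.mpr (by omega)) hcon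
  have := hconst p
  rw [hνp, hνz] at this
  exact absurd this (by decide)

/-- Every continuous map of a continuum `X` into a chainable continuum identifies two points at
distance `a`, for every `a` with `0 < a < width X`. -/
theorem result (X Y : Type*) [MetricSpace X] [CompactSpace X] [ConnectedSpace X]
    [MetricSpace Y] [CompactSpace Y] [ConnectedSpace Y] (hY : Chainable Y)
    (f : X → Y) (hf : Continuous f) (a : ℝ) (ha : 0 < a) (haw : a < width X) :
    ∃ x y : X, dist x y = a ∧ f x = f y := by
  obtain ⟨a', hwa', haa'⟩ : ∃ a', WidthProp X a' ∧ a < a' := by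
    by_cases hne : {a : ℝ | WidthProp X a}.Nonempty
    · obtain ⟨a', h1, h2⟩ := exists_lt_of_lt_csSup hne haw
      exact ⟨a', h1, h2⟩
    · exfalso
      rw [Set.not_nonempty_iff_eq_empty] at hne
      unfold width at haw
      rw [hne, Real.sSup_empty] at haw
      linarith
  by_contra hno
  push Not at hno
  have hKc : IsCompact {z : X × X | dist z.1 z.2 = a} :=
    (isClosed_eq (continuous_fst.dist continuous_snd) continuous_const).isCompact
  obtain ⟨m, hm0, hm⟩ : ∃ m : ℝ, 0 < m ∧ ∀ x y, dist x y = a → m ≤ dist (f x) (f y) := by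
    by_cases hKe : {z : X × X | dist z.1 z.2 = a}.Nonempty
    · have hG : Continuous (fun z : X × X => dist (f z.1) (f z.2)) := by fun_prop
      obtain ⟨z, hz, hzm⟩ := hKc.exists_isMinOn hKe hG.continuousOn
      refine ⟨dist (f z.1) (f z.2), dist_pos.mpr (hno z.1 z.2 hz), ?_⟩
      intro x y hxy
      exact hzm (show (x, y) ∈ {z : X × X | dist z.1 z.2 = a} from hxy)
    · refine ⟨1, one_pos, ?_⟩
      intro x y hxy
      exact absurd ⟨(x, y), hxy⟩ hKe
  obtain ⟨g, hg, _, hgd⟩ := hY (m / 2) (by linarith)
  obtain ⟨x, y, hxy, hgxy⟩ := main_real (fun x => ((g (f x) : unitInterval) : ℝ))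
    (continuous_subtype_val.comp (hg.comp hf)) a a' ha haa' hwa'
  have h1 := hm x y hxy
  have h2 : g (f x) = g (f y) := Subtype.ext hgxy
  have h3 : dist (f x) (f y) ≤ Metric.diam (g ⁻¹' {g (f y)}) :=
    Metric.dist_le_diam_of_mem Metric.isBounded_of_compactSpace (by simp [h2]) (by simp)
  have h4 := hgd (g (f y))
  linarith

end Pool.Agent.Results.MP_75c46b_gt.Full
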